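import Pool.Agent.MNE.StmtsB

set_option autoImplicit false

namespace Pool.Agent.MNE.H53

theorem dis_aux (f f' A W W' z w : ℕ) (hf : 2 ≤ f) (hw : 8 ≤ w) (h : Near f A W z w)
    (h' : Near f' A W' z w) : ¬ W < W' := by
  intro hlt
  have hW : 2 ≤ W := hf.trans h.hW
  obtain ⟨v, rfl⟩ : ∃ v, w = v + 1 := ⟨w - 1, by omega⟩
  have h1 : W ^ (v + 1) + W ^ v ≤ W' ^ (v + 1) := by
    calc W ^ (v + 1) + W ^ v = W ^ v * (W + 1) := by ring
      _ ≤ W' ^ v * W' := Nat.mul_le_mul (Nat.pow_le_pow_left hlt.le v) hlt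
      _ = W' ^ (v + 1) := by ring
  have h2 : W ^ v ≤ A ^ z - W ^ (v + 1) := by
    have := h'.lt
    omega
  have h3 : W ^ (50 * v) ≤ W ^ (43 * (v + 1)) := by
    calc W ^ (50 * v) = (W ^ v) ^ 50 := by rw [← pow_mul]; ring_nf
      _ ≤ (A ^ z - W ^ (v + 1)) ^ 50 := Nat.pow_le_pow_left h2 50
      _ ≤ (W ^ (v + 1)) ^ 43 := h.le
      _ = W ^ (43 * (v + 1)) := by rw [← pow_mul]; ring_nf
  have h4 := (Nat.pow_le_pow_iff_right (by omega : 1 < W)).1 h3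
  omega

/-- DIS -/
theorem dis : DisStmt := by
  intro f f' A W W' z w hf hf' hw h h'
  have h1 := dis_aux f f' A W W' z w hf hw h h'
  have h2 := dis_aux f' f A W' W z w hf' hw h' h
  omega

end Pool.Agent.MNE.H53
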